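import Mathlib

namespace Pool.Agent.Results.MP_01622d_an.SnakeNotExtremal

open Polynomial

/-- uniform norm on `[-1,1]` -/
noncomputable def unorm (f : ℝ → ℝ) : ℝ := sSup ((fun x => |f x|) '' Set.Icc (-1) 1)

/-- `μ` is a majorant: continuous and nonnegative on `[-1,1]`. -/
def IsMajorant (μ : ℝ → ℝ) : Prop :=
  ContinuousOn μ (Set.Icc (-1) 1) ∧ ∀ x ∈ Set.Icc (-1 : ℝ) 1, 0 ≤ μ x

/-- `q` has degree at most `n` and `|q| ≤ μ` on `[-1,1]`. -/
def Admissible (n : ℕ) (μ : ℝ → ℝ) (q : ℝ[X]) : Prop :=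
  q.natDegree ≤ n ∧ ∀ x ∈ Set.Icc (-1 : ℝ) 1, |q.eval x| ≤ μ x

/-- `w` is the snake polynomial of `μ` in degree `n`: it is admissible and there are points
`1 ≥ τ 0 > τ 1 > ... > τ n ≥ -1` with `w (τ i) = (-1)^i μ (τ i)`. -/
def IsSnake (n : ℕ) (μ : ℝ → ℝ) (w : ℝ[X]) : Prop :=
  Admissible n μ w ∧ ∃ τ : Fin (n + 1) → ℝ, StrictAnti τ ∧
    (∀ i, τ i ∈ Set.Icc (-1 : ℝ) 1) ∧ ∀ i, w.eval (τ i) = (-1) ^ (i : ℕ) * μ (τ i)

/-- the snake polynomial -/
noncomputable def om : ℝ[X] := C 49 * X ^ 5 - C 80 * X ^ 3 + C 32 * X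
/-- the better polynomial -/
noncomputable def pp : ℝ[X] := C 45 * X ^ 4 - C 73 * X ^ 2 + C 29

theorem om_eval (x : ℝ) : om.eval x = 49 * x ^ 5 - 80 * x ^ 3 + 32 * x := by
  simp [om]
theorem pp_eval (x : ℝ) : pp.eval x = 45 * x ^ 4 - 73 * x ^ 2 + 29 := by
  simp [pp]
theorem om_der (x : ℝ) : (derivative om).eval x = 245 * x ^ 4 - 240 * x ^ 2 + 32 := by
  simp [om]; ring
theorem pp_der (x : ℝ) : (derivative pp).eval x = 180 * x ^ 3 - 146 * x := by
  simp [pp]; ring

/-- Negated form of the question: there are `n`, `k` with `1 ≤ k ≤ n`, a majorant `μ` with a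
nonzero admissible polynomial, whose snake polynomial `w` satisfies
`‖w^(k)‖ < ‖p^(k)‖` for some admissible `p`. -/
theorem result : ∃ (n k : ℕ) (μ : ℝ → ℝ), 1 ≤ k ∧ k ≤ n ∧ IsMajorant μ ∧
    (∃ P : ℝ[X], P ≠ 0 ∧ Admissible n μ P) ∧
    ∃ w : ℝ[X], IsSnake n μ w ∧ ∃ p : ℝ[X], Admissible n μ p ∧
      unorm (fun x => (derivative^[k] w).eval x) < unorm (fun x => (derivative^[k] p).eval x) := by
  have hw : Admissible 5 (fun x => max |om.eval x| |pp.eval x|) om :=
    ⟨by unfold om; compute_degree, fun x _ => le_max_left _ _⟩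
  have hp : Admissible 5 (fun x => max |om.eval x| |pp.eval x|) pp :=
    ⟨by unfold pp; compute_degree!, fun x _ => le_max_right _ _⟩
  refine ⟨5, 1, fun x => max |om.eval x| |pp.eval x|, le_refl _, by norm_num, ?_, ?_, om, ?_,
    pp, hp, ?_⟩
  · refine ⟨?_, fun x _ => le_max_of_le_left (abs_nonneg _)⟩
    apply Continuous.continuousOn
    exact (om.continuous.abs).max (pp.continuous.abs)
  · refine ⟨om, ?_, hw⟩
    intro h
    have := om_eval 1
    rw [h] at this
    norm_num at this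
  · refine ⟨hw, ![1, 24 / 25, 83 / 100, -83 / 100, -24 / 25, -1], ?_, ?_, ?_⟩
    · intro i j hij
      fin_cases i <;> fin_cases j <;> simp at hij ⊢ <;> norm_num
    · intro i
      fin_cases i <;> simp <;> norm_num
    · intro i
      fin_cases i <;> simp [om_eval, pp_eval, Matrix.vecHead, Matrix.vecTail] <;>
        norm_num [abs_of_pos, abs_of_neg, max_def]
  · simp only [Function.iterate_one]
    have h1 : unorm (fun x => (derivative om).eval x) ≤ 37 := by
      apply csSup_le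
      · exact (Set.nonempty_Icc.2 (by norm_num)).image _
      · rintro _ ⟨x, hx, rfl⟩
        simp only
        rw [om_der, abs_le]
        have hx2 : x ^ 2 ≤ 1 := by nlinarith [hx.1, hx.2]
        constructor
        · nlinarith [sq_nonneg (x ^ 2 - 24 / 49)]
        · nlinarith [sq_nonneg x, mul_nonneg (sq_nonneg x) (sub_nonneg.2 hx2)]
    have h2 : (101 / 2 : ℝ) ≤ unorm (fun x => (derivative pp).eval x) := by
      apply le_csSup_of_le (b := |(derivative pp).eval (1 / 2)|)
      · apply IsCompact.bddAbove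
        apply isCompact_Icc.image
        exact (derivative pp).continuous.abs
      · exact ⟨1 / 2, ⟨by norm_num, by norm_num⟩, rfl⟩
      · rw [pp_der]
        norm_num [abs_of_neg]
    linarith

end Pool.Agent.Results.MP_01622d_an.SnakeNotExtremal
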